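import Pool.Agent.EQ1.Min
import Pool.Agent.EQ1.C5
import Pool.Agent.EQ1.Z3

/-!
# [EQ1] the isomorphism classes of the elliptic curves over `ℚ(i)` with `j = 1728` and rational points of order `2`, ordered by the norm of the minimal discriminant
-/

set_option autoImplicit false

open NumberField IsDedekindDomain
open scoped Classical ComplexConjugate

namespace EQ1

open PI

/-- a map on a symmetric set whose fibres are `{d, -d}` -/
theorem two_image {β : Type} (F : Gi → β) (A : Set Gi) (hA : A.Finite) (hs : ∀ d ∈ A, -d ∈ A)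
    (h0 : (0 : Gi) ∉ A) (hF : ∀ d ∈ A, ∀ d' ∈ A, F d = F d' ↔ d' = d ∨ d' = -d) :
    2 * (F '' A).ncard = A.ncard := by
  obtain ⟨B, rfl⟩ := hA.exists_finset_coe
  rw [← Finset.coe_image, Set.ncard_coe_finset, Set.ncard_coe_finset,
    Finset.card_eq_sum_card_image F B]
  rw [Finset.sum_congr rfl (g := fun _ => 2), Finset.sum_const, smul_eq_mul, mul_comm]
  intro b hb
  obtain ⟨d, hd, rfl⟩ := Finset.mem_image.1 hb
  have hd0 : d ≠ 0 := fun h => h0 (h ▸ hd)
  have e : B.filter (fun x => F x = F d) = {d, -d} := by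
    ext x
    rw [Finset.mem_filter, Finset.mem_insert, Finset.mem_singleton]
    constructor
    · rintro ⟨h1, h2⟩
      exact (hF d hd x h1).1 h2.symm
    · rintro (h1 | h1)
      · rw [h1]
        exact ⟨hd, rfl⟩
      · rw [h1]
        have h3 : -d ∈ (B : Set Gi) := hs d hd
        exact ⟨h3, ((hF d hd (-d) h3).2 (Or.inr rfl)).symm⟩
  rw [e, Finset.card_pair]
  intro h
  apply hd0
  have h2 : (2 : Gi) * d = 0 := by linear_combination h
  rcases mul_eq_zero.1 h2 with h3 | h3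
  · exact absurd h3 (by decide)
  · exact h3

/-- a squarefree `d` -/
theorem sq_form {d : Gi} (h : Squarefree d) : ∃ (e : Gi) (S : Finset Gi), Adm e S ∧
    (d = e * ∏ p ∈ S, p ∨ d = -(e * ∏ p ∈ S, p)) := by
  have hd : d ≠ 0 := h.ne_zero
  obtain ⟨x, y, T, t, hx, hy, hT, ht, h1⟩ := PID.form_gi d hd
  refine ⟨ii ^ x * la ^ y, T, ⟨hT, ?_⟩, ?_⟩
  · have hx' : x = 0 ∨ x = 1 := by omega
    have hy' : y = 0 ∨ y = 1 := by omega
    rcases hx' with rfl | rfl <;> rcases hy' with rfl | rfl <;> simp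
  · have hu : IsUnit t := h t ⟨ii ^ x * la ^ y * ∏ p ∈ T, p, by rw [h1]; ring⟩
    have h2 := (unit_iff t).1 hu
    have h3 : t ^ 2 = 1 ∨ t ^ 2 = -1 := by
      rcases h2 with rfl | rfl | rfl | rfl
      · left; decide
      · left; decide
      · right; decide
      · right; decide
    rcases h3 with h3 | h3
    · left; rw [h1, h3]; ring
    · right; rw [h1, h3]; ring

theorem sq_neg {d : Gi} (h : Squarefree d) : Squarefree (-d) := fun x hx => h x ((dvd_neg).1 hx)

theorem sq_dvd_sq_gi {a b : Gi} : a ^ 2 ∣ b ^ 2 ↔ a ∣ b := 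
  UniqueFactorizationMonoid.pow_dvd_pow_iff_dvd two_ne_zero

/-- the class of `y² = x³ - d² x` -/
noncomputable def Fd (d : Gi) : UN.Cls KI := Quotient.mk _ (W (emK d))

theorem Fd_neg (d : Gi) : Fd (-d) = Fd d := by
  unfold Fd
  have h : W (emK (-d)) = W (emK d) := by
    unfold W
    rw [map_neg, neg_sq]
  rw [h]

theorem qf_sq {d : Gi} (h : Squarefree d) : UN.QF ((eG d : 𝓞 KI) ^ 2) := by
  refine ⟨pow_ne_zero 2 ((map_ne_zero_iff eG eG.injective).2 h.ne_zero), fun p hp hd => ?_⟩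
  obtain ⟨q, rfl⟩ := eG.surjective p
  have h1 : q ^ 4 ∣ d ^ 2 := by
    have h2 := map_dvd eG.symm hd
    rwa [map_pow, map_pow, RingEquiv.symm_apply_apply, RingEquiv.symm_apply_apply] at h2
  have h2 : q ^ 2 ∣ d := by
    rw [← sq_dvd_sq_gi]
    rw [← pow_mul]
    exact h1
  have h3 : IsUnit q := h q (by rwa [← pow_two])
  exact hp.not_isUnit (h3.map eG)

theorem Fd_eq {d d' : Gi} (h : Squarefree d) (h' : Squarefree d') : Fd d = Fd d' ↔ d' = d ∨ d' = -d := by
  constructor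
  · intro h1
    have h2 : (MulAction.orbitRel (WeierstrassCurve.VariableChange KI) (WeierstrassCurve KI)).r
        (W (emK d)) (W (emK d')) := Quotient.exact h1
    obtain ⟨C, hC⟩ := h2
    have h3 : QT.W ((((eG d : 𝓞 KI) ^ 2 : 𝓞 KI) : KI)) = C • QT.W ((((eG d' : 𝓞 KI) ^ 2 : 𝓞 KI) : KI)) := by
      have e : ∀ x : Gi, QT.W ((((eG x : 𝓞 KI) ^ 2 : 𝓞 KI) : KI)) = W (emK x) := by
        intro x
        rw [← WQ]
        congr 1
      rw [e, e]
      exact hC.symm
    have h4 := UN.one_unique (qf_sq h) (qf_sq h') C h3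
    rw [← map_pow, ← map_pow] at h4
    have h5 := eG.injective h4
    rcases sq_eq_sq_iff_eq_or_eq_neg.1 h5 with h6 | h6
    · left; exact h6.symm
    · right; rw [h6, neg_neg]
  · rintro (rfl | rfl)
    · rfl
    · exact (Fd_neg d).symm

theorem Fd_ell {d : Gi} (hd : d ≠ 0) : ∃ _ : (W (emK d)).IsElliptic, (W (emK d)).j = 1728 := by
  have h : (emK d) ^ 2 ≠ 0 := pow_ne_zero 2 (PID.emK_ne hd)
  exact UN.one_j h

/-- the point `(a, 0)` of a curve with `a₁ = a₃ = 0` has order two -/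
theorem tors_two {L : Type} [Field L] (E : WeierstrassCurve L) (a : L) (hns : E.toAffine.Nonsingular a 0)
    (h1 : E.a₁ = 0) (h3 : E.a₃ = 0) : WeierstrassCurve.Affine.Point.some a 0 hns + .some a 0 hns = 0 := by
  have h4 : -(WeierstrassCurve.Affine.Point.some a 0 hns) = .some a 0 hns := by
    rw [WeierstrassCurve.Affine.Point.neg_some]
    congr 1
    simp [WeierstrassCurve.Affine.negY, h1, h3]
  have h2 := neg_add_cancel (WeierstrassCurve.Affine.Point.some a 0 hns)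
  rw [h4] at h2
  exact h2

theorem Fd_full {d : Gi} (hd : d ≠ 0) : FullTwo (W (emK d)) := by
  have h0 : emK d ≠ 0 := PID.emK_ne hd
  have hns : (W (emK d)).toAffine.Nonsingular 0 0 := by
    rw [WeierstrassCurve.Affine.nonsingular_iff, WeierstrassCurve.Affine.equation_iff]
    constructor
    · simp [W]
    · left
      simp [W, h0]
  have hns' : (W (emK d)).toAffine.Nonsingular (emK d) 0 := by
    rw [WeierstrassCurve.Affine.nonsingular_iff, WeierstrassCurve.Affine.equation_iff]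
    constructor
    · simp [W]; ring
    · left
      simp only [W, zero_mul, mul_zero, add_zero, ne_eq]
      intro h
      apply h0
      have h2 : (2 : KI) * (emK d) ^ 2 = 0 := by linear_combination -h
      rcases mul_eq_zero.1 h2 with h3 | h3
      · norm_num at h3
      · exact pow_eq_zero_iff (two_ne_zero) |>.1 h3
  refine ⟨.some _ _ hns, .some _ _ hns', ?_, ?_, ?_, ?_, ?_⟩
  · intro h; cases h
  · intro h; cases h
  · intro h
    injection h with h1
    exact h0 h1.symm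
  · exact tors_two _ _ hns rfl rfl
  · exact tors_two _ _ hns' rfl rfl

theorem Fd_disc {d : Gi} (h : Squarefree d) (X : ℕ) :
    UN.DiscLE (W (emK d)) X ↔ 4096 * d.norm.natAbs ^ 6 ≤ X := by
  obtain ⟨e, S, ha, hd⟩ := sq_form h
  have h1 := disc_iff ha X
  have h2 : W (emK d) = W ((eG (e * ∏ p ∈ S, p) : 𝓞 KI) : KI) := by
    rcases hd with hd | hd
    · rw [hd]; rfl
    · rw [hd, map_neg]
      change W (-emK _) = W (emK _)
      unfold W
      rw [neg_sq]
  have h3 : d.norm = (e * ∏ p ∈ S, p).norm := by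
    rcases hd with hd | hd
    · rw [hd]
    · rw [hd, Zsqrtd.norm_neg]
  rw [h2, h1, h3]

theorem fe_Y (X : ℕ) : ∃ Y : ℕ, (∀ n : ℕ, 4096 * n ^ 6 ≤ X ↔ n ≤ Y) := by
  refine ⟨Nat.findGreatest (fun y => 4096 * y ^ 6 ≤ X) X, fun n => ⟨fun h => ?_, fun h => ?_⟩⟩
  · refine Nat.le_findGreatest ?_ h
    calc n ≤ n ^ 6 := Nat.le_self_pow (by norm_num) n
      _ ≤ 4096 * n ^ 6 := Nat.le_mul_of_pos_left _ (by norm_num)
      _ ≤ X := h
  · have h1 : 4096 * (Nat.findGreatest (fun y => 4096 * y ^ 6 ≤ X) X) ^ 6 ≤ X :=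
      Nat.findGreatest_spec (P := fun y => 4096 * y ^ 6 ≤ X) (m := 0) (Nat.zero_le _) (by norm_num)
    exact (Nat.mul_le_mul_left _ (Nat.pow_le_pow_left h 6)).trans h1

theorem fe_norm (d : Gi) (Y : ℕ) : d.norm.natAbs ≤ Y ↔ d.norm ≤ Y := by
  have h := GaussianInt.norm_nonneg d
  omega

theorem sq_finite (Y : ℕ) : {d : Gi | Squarefree d ∧ d.norm ≤ Y}.Finite := by
  have h := (UN.one_count Y).1
  have h2 : (eG '' {d : Gi | Squarefree d ∧ d.norm ≤ Y}).Finite := by
    refine h.subset ?_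
    rintro _ ⟨d, ⟨-, hd⟩, rfl⟩
    have h3 := UN.one_norm d
    have h4 : ((Ideal.absNorm (Ideal.span {eG d}) : ℕ) : ℤ) ≤ Y := by
      rw [h3]
      exact hd
    exact_mod_cast h4
  exact Set.Finite.of_finite_image h2 eG.injective.injOn

/-- **At least 41.8% of the isomorphism classes.** -/
theorem fam_of (P : WeierstrassCurve KI → Prop)
    (hP : ∀ (e : Gi) (S : Finset Gi), Adm e S → MinS e S → P (W ((eG (e * ∏ p ∈ S, p) : 𝓞 KI) : KI))) :
    (∀ X : ℕ, (UN.fam KI 1728 FullTwo X).Finite) ∧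
    ∃ X0 : ℕ, ∀ X : ℕ, X0 ≤ X →
      418 * (UN.fam KI 1728 FullTwo X).ncard ≤
        1000 * (UN.fam KI 1728 (fun E => FullTwo E ∧ P E) X).ncard := by
  have hsub : ∀ X Y : ℕ, (∀ n : ℕ, 4096 * n ^ 6 ≤ X ↔ n ≤ Y) →
      UN.fam KI 1728 FullTwo X ⊆ Fd '' {d : Gi | Squarefree d ∧ d.norm ≤ Y} := by
    rintro X Y hXY _ ⟨E, rfl, ⟨hE, hj⟩, hX, h2⟩
    obtain ⟨e, S, C, ha, hC⟩ := exists_adm E hj h2
    have hs := (d_sq ha).1
    refine ⟨e * ∏ p ∈ S, p, ⟨hs, ?_⟩, ?_⟩
    · rw [← fe_norm, ← hXY, ← disc_iff ha]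
      rw [hC, UN.discLE_smul] at hX
      exact hX
    · apply Quotient.sound
      exact ⟨C⁻¹, by
        show C⁻¹ • E = W (emK _)
        rw [hC, inv_smul_smul]
        rfl⟩
  have hfin : ∀ X : ℕ, (UN.fam KI 1728 FullTwo X).Finite := by
    intro X
    obtain ⟨Y, hY⟩ := fe_Y X
    exact ((sq_finite Y).image _).subset (hsub X Y hY)
  refine ⟨hfin, ?_⟩
  obtain ⟨X1, h1⟩ := density_min
  refine ⟨4096 * X1 ^ 6, fun X hX => ?_⟩
  obtain ⟨Y, hY⟩ := fe_Y X
  have hY1 : X1 ≤ Y := (hY X1).1 hX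
  have h3 := h1 Y hY1
  set A := {d : Gi | Squarefree d ∧ d.norm ≤ Y} with hA
  set B := {d : Gi | Squarefree d ∧ d.norm ≤ Y ∧ ∃ (e : Gi) (S : Finset Gi), Adm e S ∧ MinS e S ∧
        (d = e * ∏ p ∈ S, p ∨ d = -(e * ∏ p ∈ S, p))} with hB
  have hAfin : A.Finite := sq_finite Y
  have hBfin : B.Finite := hAfin.subset fun d hd => ⟨hd.1, hd.2.1⟩
  have hA2 : 2 * (Fd '' A).ncard = A.ncard := by
    refine two_image Fd A hAfin ?_ ?_ ?_
    · rintro d ⟨h4, h5⟩
      exact ⟨sq_neg h4, by rw [Zsqrtd.norm_neg]; exact h5⟩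
    · rintro ⟨h4, -⟩
      exact h4.ne_zero rfl
    · rintro d ⟨h4, -⟩ d' ⟨h4', -⟩
      exact Fd_eq h4 h4'
  have hB2 : 2 * (Fd '' B).ncard = B.ncard := by
    refine two_image Fd B hBfin ?_ ?_ ?_
    · rintro d ⟨h4, h5, e, S, h6, h7, h8⟩
      refine ⟨sq_neg h4, by rw [Zsqrtd.norm_neg]; exact h5, e, S, h6, h7, ?_⟩
      rcases h8 with h8 | h8
      · right; rw [h8]
      · left; rw [h8, neg_neg]
    · rintro ⟨h4, -⟩
      exact h4.ne_zero rfl
    · rintro d ⟨h4, -⟩ d' ⟨h4', -⟩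
      exact Fd_eq h4 h4'
  have h4 : (UN.fam KI 1728 FullTwo X).ncard ≤ (Fd '' A).ncard :=
    Set.ncard_le_ncard (hsub X Y hY) (hAfin.image _)
  have h5 : (Fd '' B).ncard ≤ (UN.fam KI 1728 (fun E => FullTwo E ∧ P E) X).ncard := by
    refine Set.ncard_le_ncard ?_ ((hfin X).subset ?_)
    · rintro _ ⟨d, ⟨hs, hN, e, S, ha, hm, hd⟩, rfl⟩
      have h0 : d ≠ 0 := hs.ne_zero
      refine ⟨W (emK d), rfl, Fd_ell h0, ?_, Fd_full h0, ?_⟩
      · rw [Fd_disc hs, hY, fe_norm]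
        exact hN
      · have h6 := hP e S ha hm
        rcases hd with hd | hd
        · rw [hd]; exact h6
        · rw [hd, map_neg]
          have h7 : W (-emK (e * ∏ p ∈ S, p)) = W ((eG (e * ∏ p ∈ S, p) : 𝓞 KI) : KI) := by
            change W (-emK _) = W (emK _)
            unfold W
            rw [neg_sq]
          rw [h7]
          exact h6
    · rintro _ ⟨E, h1, h2, h3, h4⟩
      exact ⟨E, h1, h2, h3, h4.1⟩
  omega

/-- [EQ1] **At least 41.8 % of the isomorphism classes of elliptic curves over `ℚ(i)` with `j = 1728` and rational points of order `2` have rank `0`, `L(E, 1) ≠ 0`, odd Tate-Shafarevich group and the `2`-part of the formula of Birch and Swinnerton-Dyer.** -/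
theorem fam_min :
    (∀ X : ℕ, (UN.fam KI 1728 FullTwo X).Finite) ∧
    ∃ X0 : ℕ, ∀ X : ℕ, X0 ≤ X →
      418 * (UN.fam KI 1728 FullTwo X).ncard ≤
        1000 * (UN.fam KI 1728 (fun E => FullTwo E ∧ SBSD2.TwoPartRankZero E) X).ncard :=
  fam_of _ fun _ _ ha hm => (twoPart_iff ha).2 hm

end EQ1
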