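import Pool.Agent.EQ1.All1
import Pool.Agent.EQ1.T3
import Pool.Agent.UN.One2

/-!
# [EQ1] the norm of the minimal discriminant of `y² = x³ - d² x` is `4096 N(d)⁶` (`d` squarefree)
-/

set_option autoImplicit false

open NumberField IsDedekindDomain
open scoped Classical ComplexConjugate

namespace EQ1

open PI

section
variable {A : Type} [CommRing A] [IsDomain A] [IsDiscreteValuationRing A] {K : Type} [Field K]
  [Algebra A K] [IsFractionRing A K]

/-- the valuation of the discriminant of an integral equation, if the change of variables to a minimal equation has a unit `u` -/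
theorem le_of_min (W : WeierstrassCurve K) {T : WeierstrassCurve.VariableChange K}
    (hT : (T • W).IsMinimal A)
    (hu : (IsDiscreteValuationRing.maximalIdeal A).valuation K (T.u : K) = 1)
    {V : WeierstrassCurve K} (hV : V.IsIntegral A) (C : WeierstrassCurve.VariableChange K)
    (hC : V = C • W) :
    (IsDiscreteValuationRing.maximalIdeal A).valuation K V.Δ ≤
      (IsDiscreteValuationRing.maximalIdeal A).valuation K W.Δ := by
  have hint : (T • W).IsIntegral A := by
    have := hT.val_Δ_maximal.1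
    simpa using this
  have e : (C * T⁻¹) • (T • W) = V := by
    rw [mul_smul, inv_smul_smul, hC]
  have hj : ((C * T⁻¹) • (T • W)).IsIntegral A := by
    rw [e]; exact hV
  have h1 : WeierstrassCurve.valuation_Δ_aux A ((C * T⁻¹) • (T • W)) ≤
      WeierstrassCurve.valuation_Δ_aux A ((1 : WeierstrassCurve.VariableChange K) • (T • W)) := by
    rcases le_total (WeierstrassCurve.valuation_Δ_aux A ((1 : WeierstrassCurve.VariableChange K) • (T • W)))
      (WeierstrassCurve.valuation_Δ_aux A ((C * T⁻¹) • (T • W))) with h | h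
    · exact hT.val_Δ_maximal.2 hj h
    · exact h
  rw [one_smul, e] at h1
  have h2 : (WeierstrassCurve.valuation_Δ_aux A V : WithZero (Multiplicative ℤ)) ≤
      WeierstrassCurve.valuation_Δ_aux A (T • W) := h1
  rw [WeierstrassCurve.valuation_Δ_aux_eq_of_isIntegral,
    WeierstrassCurve.valuation_Δ_aux_eq_of_isIntegral] at h2
  refine h2.trans (le_of_eq ?_)
  rw [WeierstrassCurve.variableChange_Δ, map_mul, map_pow, Units.val_inv_eq_inv_val, map_inv₀, hu,
    inv_one, one_pow, one_mul]

end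

section
variable {K : Type} [Field K] [NumberField K]

/-- an equation which is minimal at all places: its discriminant divides the discriminant of every integral equation -/
theorem dvd_min (I M : WeierstrassCurve (𝓞 K)) (hI0 : I.Δ ≠ 0)
    (hmin : ∀ (v : HeightOneSpectrum (𝓞 K)) (T : WeierstrassCurve.VariableChange (v.adicCompletion K)),
      (T • (I.map (algebraMap (𝓞 K) K)).baseChange (v.adicCompletion K)).IsMinimal (v.adicCompletionIntegers K) →
      (IsDiscreteValuationRing.maximalIdeal (v.adicCompletionIntegers K)).valuation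
        (v.adicCompletion K) (T.u : v.adicCompletion K) = 1)
    (C : WeierstrassCurve.VariableChange K)
    (hM : M.map (algebraMap (𝓞 K) K) = C • I.map (algebraMap (𝓞 K) K)) : I.Δ ∣ M.Δ := by
  refine UN.dvd_of_val hI0 fun v => ?_
  let Kv := v.adicCompletion K
  let Av := v.adicCompletionIntegers K
  obtain ⟨T, hT⟩ := ((I.map (algebraMap (𝓞 K) K)).baseChange Kv).exists_isMinimal Av
  have hu := hmin v T hT
  have hint : ((M.map (algebraMap (𝓞 K) K)).baseChange Kv).IsIntegral Av := by
    refine ⟨M.map (algebraMap (𝓞 K) Av), ?_⟩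
    rw [WeierstrassCurve.baseChange, WeierstrassCurve.baseChange, WeierstrassCurve.map_map,
      WeierstrassCurve.map_map]
    rfl
  have h1 := le_of_min _ hT hu hint (C.map (algebraMap K Kv)) (by
    rw [WeierstrassCurve.baseChange, WeierstrassCurve.baseChange, hM,
      WeierstrassCurve.map_variableChange])
  have e1 : ∀ V : WeierstrassCurve (𝓞 K), ((V.map (algebraMap (𝓞 K) K)).baseChange Kv).Δ =
      algebraMap K Kv (V.Δ : K) := by
    intro V
    rw [WeierstrassCurve.baseChange, WeierstrassCurve.map_Δ, WeierstrassCurve.map_Δ]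
  rw [e1, e1] at h1
  have hI : (I.Δ : K) ≠ 0 := by exact_mod_cast hI0
  have hI' : algebraMap K Kv (I.Δ : K) ≠ 0 := (map_ne_zero _).2 hI
  have h2 : (IsDiscreteValuationRing.maximalIdeal Av).valuation Kv
      (algebraMap K Kv ((M.Δ : K) / (I.Δ : K))) ≤ 1 := by
    rw [map_div₀, map_div₀]
    exact div_le_one_of_le₀ h1 zero_le
  obtain ⟨a, ha⟩ := IsDiscreteValuationRing.exists_lift_of_le_one h2
  have h3 : Valued.v (algebraMap K Kv ((M.Δ : K) / (I.Δ : K))) ≤ 1 := by
    rw [← ha]
    exact a.2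
  have h4 : v.valuation K ((M.Δ : K) / (I.Δ : K)) ≤ 1 := by
    have h5 := h3
    rw [show algebraMap K Kv ((M.Δ : K) / (I.Δ : K)) = (((M.Δ : K) / (I.Δ : K) : K) : Kv) from rfl,
      HeightOneSpectrum.valuedAdicCompletion_eq_valuation'] at h5
    exact h5
  rw [map_div₀] at h4
  have h6 : v.valuation K (I.Δ : K) ≠ 0 := (map_ne_zero _).2 hI
  exact (div_le_one₀ (zero_lt_iff.2 h6)).1 h4

end

section
variable (e : Gi) (S : Finset Gi) (h : Adm e S) (v : HeightOneSpectrum (𝓞 KI))
include h

/-- the equation `y² = x³ - d² x` is minimal at all places -/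
theorem min_all (T : WeierstrassCurve.VariableChange (v.adicCompletion KI))
    (hT : (T • (W ((eG (e * ∏ p ∈ S, p) : 𝓞 KI) : KI)).baseChange (v.adicCompletion KI)).IsMinimal
      (v.adicCompletionIntegers KI)) :
    (IsDiscreteValuationRing.maximalIdeal (v.adicCompletionIntegers KI)).valuation
      (v.adicCompletion KI) (T.u : v.adicCompletion KI) = 1 := by
  rw [t5b_bc] at hT
  rcases gen_cases (v := v) with hv | ⟨b, hb, hp, hv⟩
  · by_cases he : e = 1 ∨ e = ii
    · exact unit_la_odd _ _ _ (t5b_ii v) (t5b_la v) (t5b_la_irr hv) (t5b_res hv) _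
        (t5b_unit hv _ (t3_t5b_unit_la e S h he)) T hT
    · obtain ⟨d', hd', hnl⟩ := t3_t5b_even e S h he
      rw [hd', map_mul (t5b_lo v)] at hT
      exact unit_la_even _ _ _ (t5b_ii v) (t5b_la v) (t5b_la_irr hv) (t5b_res hv) _
        (t5b_unit hv d' hnl) T hT
  · by_cases hS : b ∈ S
    · exact unit_odd_bad _ (t3_t5b_unit_two e S h v hS hv) _ (t3_t5b_irr_odd e S h v hS hv) T hT
    · exact unit_good _ _ (t3_t5b_good_unit e S h v hb hp hv hS) T hT

end

theorem W_mapO (d : 𝓞 KI) : W (d : KI) = (W d).map (algebraMap (𝓞 KI) KI) := by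
  refine WeierstrassCurve.ext ?_ ?_ ?_ ?_ ?_
  · exact (map_zero _).symm
  · exact (map_zero _).symm
  · exact (map_zero _).symm
  · change -(algebraMap (𝓞 KI) KI d) ^ 2 = algebraMap (𝓞 KI) KI (-d ^ 2)
    rw [map_neg, map_pow]
  · exact (map_zero _).symm

theorem W_ΔO (d : 𝓞 KI) : (W d).Δ = 64 * d ^ 6 := by
  simp only [W, WeierstrassCurve.Δ, WeierstrassCurve.b₂, WeierstrassCurve.b₄,
    WeierstrassCurve.b₆, WeierstrassCurve.b₈]
  ring

theorem W_norm (d : Gi) : Ideal.absNorm (Ideal.span {(W (eG d : 𝓞 KI)).Δ}) = 4096 * d.norm.natAbs ^ 6 := by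
  have e : (W (eG d : 𝓞 KI)).Δ = eG (64 * d ^ 6) := by
    rw [W_ΔO, map_mul, map_pow, map_ofNat]
  have h1 := UN.one_norm (64 * d ^ 6)
  rw [e]
  zify
  rw [h1, Zsqrtd.norm_mul]
  have h2 : (d ^ 6).norm = d.norm ^ 6 := by
    have := map_pow (Zsqrtd.normMonoidHom (d := -1)) d 6
    exact this
  rw [h2]
  have h3 : (64 : Gi).norm = 4096 := by decide
  rw [h3, abs_of_nonneg (GaussianInt.norm_nonneg d)]

/-- the discriminant -/
theorem disc_iff {e : Gi} {S : Finset Gi} (h : Adm e S) (X : ℕ) :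
    UN.DiscLE (W ((eG (e * ∏ p ∈ S, p) : 𝓞 KI) : KI)) X ↔
      4096 * (e * ∏ p ∈ S, p).norm.natAbs ^ 6 ≤ X := by
  have h0 : e * ∏ p ∈ S, p ≠ 0 := (d_sq h).2
  set d := e * ∏ p ∈ S, p with hd
  have hd0 : (eG d : 𝓞 KI) ≠ 0 := (map_ne_zero_iff eG eG.injective).2 h0
  have hΔ0 : (W (eG d : 𝓞 KI)).Δ ≠ 0 := by
    rw [W_ΔO]
    exact mul_ne_zero (by norm_num) (pow_ne_zero _ hd0)
  constructor
  · rintro ⟨M, C, h1, h2⟩
    have h3 : (W (eG d : 𝓞 KI)).Δ ∣ M.Δ := by
      refine dvd_min (W (eG d : 𝓞 KI)) M hΔ0 ?_ C⁻¹ ?_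
      · intro v T hT
        rw [← W_mapO] at hT
        exact min_all e S h v T hT
      · rw [← W_mapO, h1, inv_smul_smul]
    have hM : M.Δ ≠ 0 := by
      intro hM
      have h4 := congrArg WeierstrassCurve.Δ h1
      rw [WeierstrassCurve.variableChange_Δ, WeierstrassCurve.map_Δ, hM, map_zero, mul_zero,
        W_mapO, WeierstrassCurve.map_Δ] at h4
      exact hΔ0 (FaithfulSMul.algebraMap_injective (𝓞 KI) KI (h4.trans (map_zero _).symm))
    have h4 : Ideal.absNorm (Ideal.span {(W (eG d : 𝓞 KI)).Δ}) ≤ Ideal.absNorm (Ideal.span {M.Δ}) := by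
      refine Nat.le_of_dvd ?_ (Ideal.absNorm_dvd_absNorm_of_le ?_)
      · rw [Nat.pos_iff_ne_zero, Ne, Ideal.absNorm_eq_zero_iff, Ideal.span_singleton_eq_bot]
        exact hM
      · rw [Ideal.span_singleton_le_span_singleton]
        exact h3
    rw [W_norm] at h4
    exact h4.trans h2
  · intro h1
    refine ⟨W (eG d : 𝓞 KI), 1, ?_, ?_⟩
    · rw [one_smul]
      exact W_mapO _
    · rw [W_norm]
      exact h1

end EQ1
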